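import Mathlib
set_option autoImplicit false

/-! Operators on `L¹` of a countable discrete space are localized at points. -/

open MeasureTheory Filter Topology
open scoped ENNReal

namespace Pool.Agent.X333.ONL

variable {X : Type} [Countable X] [TopologicalSpace X] [DiscreteTopology X]
  [MeasurableSpace X] [BorelSpace X]
  {E : Type} [NormedAddCommGroup E] [NormedSpace ℝ E]
  {ν : Measure X} [IsLocallyFiniteMeasure ν]

omit [Countable X] [DiscreteTopology X] [BorelSpace X] in
theorem single_ne_top (x : X) : ν {x} ≠ ⊤ := (isCompact_singleton.measure_lt_top).ne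

/-- the indicator of a point -/
noncomputable def pt (ν : Measure X) [IsLocallyFiniteMeasure ν] (x : X) (c : E) : Lp E 1 ν :=
  indicatorConstLp 1 (measurableSet_singleton x) (single_ne_top (ν := ν) x) c

theorem meas (s : Set X) : MeasurableSet s := s.to_countable.measurableSet

theorem finset_bound (T : Lp E 1 ν →L[ℝ] Lp E 1 ν) {M : ℝ}
    (h : ∀ (x : X) (c : E), ‖T (pt ν x c)‖ ≤ M * ‖pt ν x c‖) (c : E) (F : Finset X) :
    ∀ hF : ν (F : Set X) ≠ ⊤, ‖T (indicatorConstLp 1 (meas (F : Set X)) hF c)‖ ≤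
      M * ‖indicatorConstLp 1 (meas (F : Set X)) hF c‖ := by
  classical
  induction F using Finset.induction_on with
  | empty =>
    intro hF
    have h0 : indicatorConstLp 1 (meas ((∅ : Finset X) : Set X)) hF c = 0 := by
      simp
    rw [h0, map_zero, norm_zero, mul_zero]
  | insert x F hx ih =>
    intro hF
    have hF' : ν (F : Set X) ≠ ⊤ := by
      refine ne_top_of_le_ne_top hF (measure_mono ?_)
      rw [Finset.coe_insert]
      exact Set.subset_insert _ _
    have hd : Disjoint ({x} : Set X) (F : Set X) := by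
      rw [Set.disjoint_singleton_left]
      exact_mod_cast hx
    have h1 : indicatorConstLp 1 (meas ((insert x F : Finset X) : Set X)) hF c =
        pt ν x c + indicatorConstLp 1 (meas (F : Set X)) hF' c := by
      have h2 := indicatorConstLp_disjoint_union (p := 1) (measurableSet_singleton x)
        (meas (F : Set X)) (single_ne_top (ν := ν) x) hF' hd c
      rw [pt, ← h2]
      congr 1
      rw [Finset.coe_insert, Set.insert_eq]
    have h3 : ‖indicatorConstLp 1 (meas ((insert x F : Finset X) : Set X)) hF c‖ =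
        ‖pt ν x c‖ + ‖indicatorConstLp 1 (meas (F : Set X)) hF' c‖ := by
      rw [pt, norm_indicatorConstLp (by norm_num) (by norm_num),
        norm_indicatorConstLp (by norm_num) (by norm_num),
        norm_indicatorConstLp (by norm_num) (by norm_num)]
      simp only [ENNReal.toReal_one, div_one, Real.rpow_one]
      rw [← mul_add]
      congr 1
      have h4 : ((insert x F : Finset X) : Set X) = {x} ∪ (F : Set X) := by
        rw [Finset.coe_insert, Set.insert_eq]
      rw [h4, measureReal_union hd (meas _) (single_ne_top (ν := ν) x) hF']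
    rw [h3, h1, map_add, mul_add]
    exact (norm_add_le _ _).trans (add_le_add (h x c) (ih hF'))

theorem set_bound (T : Lp E 1 ν →L[ℝ] Lp E 1 ν) {M : ℝ}
    (h : ∀ (x : X) (c : E), ‖T (pt ν x c)‖ ≤ M * ‖pt ν x c‖) (c : E) (s : Set X)
    (hs : MeasurableSet s) (hνs : ν s ≠ ⊤) :
    ‖T (indicatorConstLp 1 hs hνs c)‖ ≤ M * ‖indicatorConstLp 1 hs hνs c‖ := by
  classical
  obtain ⟨e, he⟩ := exists_injective_nat X
  let t : ℕ → Set X := fun n => s ∩ {x | e x < n}
  have htfin : ∀ n, (t n).Finite := fun n =>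
    ((Set.finite_lt_nat n).preimage he.injOn).subset fun x hx => hx.2
  have hνt : ∀ n, ν (t n) ≠ ⊤ := fun n => ne_top_of_le_ne_top hνs (measure_mono Set.inter_subset_left)
  have hlim : Tendsto (fun n => ν (symmDiff (t n) s)) atTop (𝓝 0) := by
    have h1 : ∀ n, symmDiff (t n) s = s ∩ {x | n ≤ e x} := by
      intro n
      ext x
      simp only [t, Set.mem_symmDiff, Set.mem_inter_iff, Set.mem_setOf_eq]
      constructor
      · rintro (⟨⟨h1, h2⟩, h3⟩ | ⟨h1, h2⟩)
        · exact absurd h1 h3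
        · refine ⟨h1, ?_⟩
          by_contra h3
          exact h2 ⟨h1, by omega⟩
      · rintro ⟨h1, h2⟩
        refine Or.inr ⟨h1, fun h3 => ?_⟩
        omega
    simp only [h1]
    have h2 : Tendsto (fun n => ν (s ∩ {x | n ≤ e x})) atTop (𝓝 (ν (⋂ n : ℕ, s ∩ {x | n ≤ e x}))) := by
      refine tendsto_measure_iInter_atTop (fun n => (meas _).nullMeasurableSet) ?_
        ⟨0, ne_top_of_le_ne_top hνs (measure_mono Set.inter_subset_left)⟩
      intro a b hab x hx
      exact ⟨hx.1, le_trans hab hx.2⟩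
    have h3 : (⋂ n : ℕ, s ∩ {x | n ≤ e x}) = ∅ := by
      ext x
      simp only [Set.mem_iInter, Set.mem_inter_iff, Set.mem_setOf_eq, Set.mem_empty_iff_false,
        iff_false, not_forall]
      exact ⟨e x + 1, by omega⟩
    rwa [h3, measure_empty] at h2
  have hconv := tendsto_indicatorConstLp_set (p := 1) (hs := hs) (hμs := hνs) (c := c)
    (ht := fun n => meas (t n)) (hμt := hνt) (by norm_num) hlim
  have hT := (T.continuous.tendsto _).comp hconv
  refine le_of_tendsto_of_tendsto hT.norm (hconv.norm.const_mul M) (Eventually.of_forall fun n => ?_)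
  have h5 := finset_bound T h c (htfin n).toFinset (by rw [Set.Finite.coe_toFinset]; exact hνt n)
  have h6 : indicatorConstLp 1 (meas (((htfin n).toFinset : Finset X) : Set X))
      (by rw [Set.Finite.coe_toFinset]; exact hνt n) c = indicatorConstLp 1 (meas (t n)) (hνt n) c := by
    congr 1
    rw [Set.Finite.coe_toFinset]
  rw [h6] at h5
  exact h5

omit [Countable X] [DiscreteTopology X] [TopologicalSpace X] [BorelSpace X] [IsLocallyFiniteMeasure ν]
  [NormedSpace ℝ E] in
theorem norm_add_disjoint {f g : X → E} (hf : MemLp f 1 ν) (hg : MemLp g 1 ν)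
    (hd : Disjoint (Function.support f) (Function.support g)) :
    ‖hf.toLp f + hg.toLp g‖ = ‖hf.toLp f‖ + ‖hg.toLp g‖ := by
  rw [← MemLp.toLp_add, Lp.norm_toLp, Lp.norm_toLp, Lp.norm_toLp, eLpNorm_one_eq_lintegral_enorm,
    eLpNorm_one_eq_lintegral_enorm, eLpNorm_one_eq_lintegral_enorm]
  have h1 : ∀ x, ‖(f + g) x‖ₑ = ‖f x‖ₑ + ‖g x‖ₑ := by
    intro x
    by_cases hx : f x = 0
    · simp [hx]
    · have h2 : g x = 0 := by
        by_contra h3
        exact Set.disjoint_left.1 hd hx h3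
      simp [h2]
  simp only [h1]
  rw [lintegral_add_left' hf.1.enorm, ENNReal.toReal_add]
  · have := hf.2
    rw [eLpNorm_one_eq_lintegral_enorm] at this
    exact this.ne
  · have := hg.2
    rw [eLpNorm_one_eq_lintegral_enorm] at this
    exact this.ne

theorem all_bound (T : Lp E 1 ν →L[ℝ] Lp E 1 ν) {M : ℝ}
    (h : ∀ (x : X) (c : E), ‖T (pt ν x c)‖ ≤ M * ‖pt ν x c‖) (g : Lp E 1 ν) :
    ‖T g‖ ≤ M * ‖g‖ := by
  refine Lp.induction (by norm_num) (motive := fun g => ‖T g‖ ≤ M * ‖g‖) ?_ ?_ ?_ g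
  · intro c s hs hνs
    have := set_bound T h c s hs hνs.ne
    exact this
  · intro f g hf hg hd h1 h2
    rw [norm_add_disjoint hf hg hd, map_add, mul_add]
    exact (norm_add_le _ _).trans (add_le_add h1 h2)
  · exact isClosed_le (T.continuous.norm) (continuous_const.mul continuous_norm)

theorem exists_atom (h : ν ≠ 0) : ∃ x, ν {x} ≠ 0 := by
  by_contra hcon
  push Not at hcon
  apply h
  rw [← Measure.measure_univ_eq_zero]
  have : (Set.univ : Set X) = ⋃ x, {x} := by
    ext x
    simp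
  rw [this, measure_iUnion_null_iff]
  exact hcon

theorem localized_gen [Nontrivial E] (h : ν ≠ 0) {k : ℝ} (hk0 : 0 < k) (hk : k < 1)
    (T : Lp E 1 ν →L[ℝ] Lp E 1 ν) :
    ∃ ξ : Lp E 1 ν, ξ ≠ 0 ∧ (∃ x : X, ∀ᵐ z ∂ν, z ∉ ({x} : Set X) → ⇑ξ z = 0) ∧
      k * ‖T‖ * ‖ξ‖ ≤ ‖T ξ‖ := by
  by_contra hcon
  push Not at hcon
  have hsupp : ∀ (x : X) (c : E), ∀ᵐ z ∂ν, z ∉ ({x} : Set X) → ⇑(pt ν x c) z = 0 := by
    intro x c
    have h1 : ⇑(pt ν x c) =ᵐ[ν] Set.indicator {x} fun _ => c := indicatorConstLp_coeFn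
    filter_upwards [h1] with z hz hzx
    rw [hz, Set.indicator_of_notMem hzx]
  have hb : ∀ (x : X) (c : E), ‖T (pt ν x c)‖ ≤ k * ‖T‖ * ‖pt ν x c‖ := by
    intro x c
    by_cases h0 : pt ν x c = 0
    · rw [h0, map_zero, norm_zero, mul_zero]
    · exact (hcon _ h0 ⟨x, hsupp x c⟩).le
  have h1 := T.opNorm_le_bound (by positivity) (all_bound T hb)
  have h2 : ‖T‖ = 0 := by
    have := norm_nonneg T
    nlinarith
  obtain ⟨x, hx⟩ := exists_atom h
  obtain ⟨c, hc⟩ := exists_ne (0 : E)
  have h3 : pt ν x c ≠ 0 := by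
    intro h4
    have h5 : ‖pt ν x c‖ = 0 := by rw [h4, norm_zero]
    rw [pt, norm_indicatorConstLp (by norm_num) (by norm_num)] at h5
    simp only [ENNReal.toReal_one, div_one, Real.rpow_one] at h5
    rcases mul_eq_zero.1 h5 with h6 | h6
    · exact hc (norm_eq_zero.1 h6)
    · rw [measureReal_eq_zero_iff (single_ne_top (ν := ν) x)] at h6
      exact hx h6
  have h4 := hcon _ h3 ⟨x, hsupp x c⟩
  rw [h2, mul_zero, zero_mul] at h4
  exact absurd (norm_nonneg _) (not_le.2 h4)

theorem localized [Nontrivial E] (h : ν ≠ 0) (T : Lp E 1 ν →L[ℝ] Lp E 1 ν) :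
    ∃ ξ : Lp E 1 ν, ξ ≠ 0 ∧ (∃ x : X, ∀ᵐ z ∂ν, z ∉ ({x} : Set X) → ⇑ξ z = 0) ∧
      1 / 2 * ‖T‖ * ‖ξ‖ ≤ ‖T ξ‖ := localized_gen h (by norm_num) (by norm_num) T

theorem countable_of_bg {Y : Type} [MetricSpace Y]
    (h : ∀ R : ℝ, 0 < R → ∀ x : Y, (Metric.ball x R).Finite) : Countable Y := by
  rcases isEmpty_or_nonempty Y with hY | ⟨⟨y⟩⟩
  · infer_instance
  · have h1 : (Set.univ : Set Y) = ⋃ n : ℕ, Metric.ball y (n + 1) := by
      refine (Set.eq_univ_of_forall fun z => ?_).symm
      obtain ⟨n, hn⟩ := exists_nat_gt (dist z y)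
      rw [Set.mem_iUnion]
      exact ⟨n, by rw [Metric.mem_ball]; linarith⟩
    rw [← Set.countable_univ_iff, h1]
    exact Set.countable_iUnion fun n => (h _ (by positivity) _).countable

theorem discrete_of_bg {Y : Type} [MetricSpace Y]
    (h : ∀ R : ℝ, 0 < R → ∀ x : Y, (Metric.ball x R).Finite) : DiscreteTopology Y := by
  rw [discreteTopology_iff_isOpen_singleton]
  intro x
  have h1 : ({x} : Set Y) = Metric.ball x 1 ∩ (Metric.ball x 1 \ {x})ᶜ := by
    ext z
    constructor
    · intro hz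
      rw [Set.mem_singleton_iff] at hz
      subst hz
      exact ⟨Metric.mem_ball_self one_pos, fun h2 => h2.2 rfl⟩
    · rintro ⟨h2, h3⟩
      by_contra h4
      exact h3 ⟨h2, h4⟩
  rw [h1]
  exact Metric.isOpen_ball.inter ((h 1 one_pos x).subset Set.diff_subset).isClosed.isOpen_compl

end Pool.Agent.X333.ONL
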