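import Mathlib
import Pool.Agent.H709Exc.J_girth_graph
set_option autoImplicit false

/-! Finite groups generated by three involutions without short relations, and the metric space
which is the disjoint union of these groups. -/

namespace Pool.Agent.X333.ONL

/-- a finite group generated by three involutions without nontrivial relations of length `≤ g` -/
structure Gp (g : ℕ) where
  Γ : Type
  [grp : Group Γ]
  [fin : Fintype Γ]
  s : Fin 3 → Γ
  sq : ∀ c, s c * s c = 1
  free : ∀ w : List (Fin 3), w ≠ [] → w.length ≤ g → w.IsChain (fun a b => a ≠ b) →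
    (w.map s).prod ≠ 1
  gen : ∀ x : Γ, ∃ w : List (Fin 3), (w.map s).prod = x

attribute [instance] Gp.grp Gp.fin

theorem rev_prod {Γ : Type} [Group Γ] (s : Fin 3 → Γ) (hs : ∀ c, s c * s c = 1)
    (w : List (Fin 3)) : (w.reverse.map s).prod = ((w.map s).prod)⁻¹ := by
  induction w with
  | nil => simp
  | cons c w ih =>
    have h1 : s c = (s c)⁻¹ := eq_inv_of_mul_eq_one_left (hs c)
    rw [List.reverse_cons, List.map_append, List.prod_append, ih, List.map_singleton,
      List.prod_singleton, List.map_cons, List.prod_cons, mul_inv_rev, ← h1]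

theorem gp_nonempty (g : ℕ) : Nonempty (Gp g) := by
  classical
  obtain ⟨Γ, hG, hF, s, hs, hw⟩ := Pool.Agent.H709Exc.girth_graph_biggs 3 g
  let H : Subgroup Γ :=
    { carrier := {x | ∃ w : List (Fin 3), (w.map s).prod = x}
      one_mem' := ⟨[], rfl⟩
      mul_mem' := by
        rintro _ _ ⟨w, rfl⟩ ⟨w', rfl⟩
        exact ⟨w ++ w', by simp⟩
      inv_mem' := by
        rintro _ ⟨w, rfl⟩
        exact ⟨w.reverse, rev_prod s hs w⟩ }
  let s' : Fin 3 → H := fun c => ⟨s c, [c], by simp⟩
  have hprod : ∀ w : List (Fin 3), (((w.map s').prod : H) : Γ) = (w.map s).prod := by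
    intro w
    induction w with
    | nil => simp
    | cons c w ih =>
      rw [List.map_cons, List.prod_cons, List.map_cons, List.prod_cons, Subgroup.coe_mul, ih]
  have : Fintype H := Fintype.ofFinite H
  refine ⟨{ Γ := H, s := s', sq := fun c => Subtype.ext (hs c), free := ?_, gen := ?_ }⟩
  · intro w h1 h2 h3 h4
    apply hw w h1 h2 h3
    rw [← hprod, h4]
    rfl
  · rintro ⟨x, w, hx⟩
    exact ⟨w, Subtype.ext ((hprod w).trans hx)⟩

/-- the chosen group -/
noncomputable def gp (g : ℕ) : Gp g := Classical.choice (gp_nonempty g)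

section

variable {g : ℕ} (G : Gp g)

/-- the product of a word -/
def pr (w : List (Fin 3)) : G.Γ := (w.map G.s).prod

theorem pr_cons (c : Fin 3) (w : List (Fin 3)) : pr G (c :: w) = G.s c * pr G w := by
  simp [pr]

theorem pr_append (w w' : List (Fin 3)) : pr G (w ++ w') = pr G w * pr G w' := by
  simp [pr]

theorem pr_reverse (w : List (Fin 3)) : pr G w.reverse = (pr G w)⁻¹ := rev_prod G.s G.sq w

/-- word length -/
noncomputable def len (x : G.Γ) : ℕ :=
  sInf {n | ∃ w : List (Fin 3), w.length = n ∧ pr G w = x}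

theorem len_spec (x : G.Γ) : ∃ w : List (Fin 3), w.length = len G x ∧ pr G w = x := by
  have : {n | ∃ w : List (Fin 3), w.length = n ∧ pr G w = x}.Nonempty := by
    obtain ⟨w, hw⟩ := G.gen x
    exact ⟨w.length, w, rfl, hw⟩
  exact Nat.sInf_mem this

theorem len_le (w : List (Fin 3)) : len G (pr G w) ≤ w.length :=
  Nat.sInf_le ⟨w, rfl, rfl⟩

theorem len_one : len G 1 = 0 := by
  have := len_le G []
  simpa [pr] using this

theorem len_eq_zero {x : G.Γ} (h : len G x = 0) : x = 1 := by
  obtain ⟨w, h1, h2⟩ := len_spec G x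
  rw [h, List.length_eq_zero_iff] at h1
  rw [← h2, h1]
  rfl

theorem len_mul (x y : G.Γ) : len G (x * y) ≤ len G x + len G y := by
  obtain ⟨w, h1, h2⟩ := len_spec G x
  obtain ⟨w', h3, h4⟩ := len_spec G y
  have := len_le G (w ++ w')
  rw [pr_append, h2, h4, List.length_append, h1, h3] at this
  exact this

theorem len_inv (x : G.Γ) : len G x⁻¹ = len G x := by
  have key : ∀ x : G.Γ, len G x⁻¹ ≤ len G x := by
    intro x
    obtain ⟨w, h1, h2⟩ := len_spec G x
    have := len_le G w.reverse
    rwa [pr_reverse, h2, List.length_reverse, h1] at this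
  exact le_antisymm (key x) (by simpa using key x⁻¹)

theorem len_s (c : Fin 3) : len G (G.s c) ≤ 1 := by
  have := len_le G [c]
  simpa [pr] using this

/-- every element is the product of a reduced word which is not longer -/
theorem exists_reduced (w : List (Fin 3)) : ∃ w' : List (Fin 3), w'.length ≤ w.length ∧
    w'.IsChain (fun a b => a ≠ b) ∧ pr G w' = pr G w := by
  induction w with
  | nil => exact ⟨[], le_rfl, List.isChain_nil, rfl⟩
  | cons c w ih =>
    obtain ⟨t, h1, h2, h3⟩ := ih
    rcases t with _ | ⟨c', u⟩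
    · exact ⟨[c], by simp, List.isChain_singleton _, by rw [pr_cons, h3, ← pr_cons]⟩
    · by_cases hc : c = c'
      · subst hc
        refine ⟨u, ?_, h2.tail, ?_⟩
        · simp only [List.length_cons] at h1 ⊢
          omega
        · rw [pr_cons, ← h3, pr_cons, ← mul_assoc, G.sq, one_mul]
      · refine ⟨c :: c' :: u, ?_, List.isChain_cons_cons.2 ⟨hc, h2⟩, ?_⟩
        · simp only [List.length_cons] at h1 ⊢
          omega
        · rw [pr_cons, h3, ← pr_cons]

/-- the points in the direction `c` seen from `x` at distance `≤ k` -/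
def T (k : ℕ) (x : G.Γ) (c : Fin 3) : Set G.Γ :=
  {z | ∃ w : List (Fin 3), (c :: w).IsChain (fun a b => a ≠ b) ∧ (c :: w).length ≤ k ∧
    z = x * pr G (c :: w)}

theorem T_disj {k : ℕ} (hk : 2 * k ≤ g) {x z : G.Γ} {c c' : Fin 3} (h : z ∈ T G k x c)
    (h' : z ∈ T G k x c') : c = c' := by
  obtain ⟨w, h1, h2, h3⟩ := h
  obtain ⟨w', h1', h2', h3'⟩ := h'
  by_contra hne
  have h4 : pr G (c :: w) = pr G (c' :: w') := by
    rw [h3] at h3'
    exact mul_left_cancel h3'
  refine G.free ((c :: w).reverse ++ (c' :: w')) (by simp) ?_ ?_ ?_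
  · rw [List.length_append, List.length_reverse]
    omega
  · rw [List.isChain_append]
    refine ⟨?_, h1', ?_⟩
    · rw [List.isChain_reverse]
      exact h1.imp fun a b hab => Ne.symm hab
    · intro a ha b hb
      simp at ha hb
      rw [← ha, ← hb]
      exact hne
  · show pr G _ = 1
    rw [pr_append, pr_reverse, h4, inv_mul_cancel]

theorem T_cover {k : ℕ} {x z : G.Γ} (hz : len G (x⁻¹ * z) ≤ k) (c : Fin 3) :
    z ∈ T G (k + 1) x c ∨ z ∈ T G (k + 1) (x * G.s c) c := by
  obtain ⟨w, h1, h2⟩ := len_spec G (x⁻¹ * z)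
  obtain ⟨t, h3, h4, h5⟩ := exists_reduced G w
  have h6 : z = x * pr G t := by
    rw [h5, h2, mul_inv_cancel_left]
  rcases t with _ | ⟨c', u⟩
  · right
    refine ⟨[], List.isChain_singleton _, by simp, ?_⟩
    rw [h6, pr_cons, mul_assoc, ← mul_assoc (G.s c) (G.s c), G.sq, one_mul]
  · by_cases hc : c = c'
    · subst hc
      left
      exact ⟨u, h4, by omega, h6⟩
    · right
      refine ⟨c' :: u, List.isChain_cons_cons.2 ⟨hc, h4⟩, ?_, ?_⟩
      · simp only [List.length_cons] at h3 ⊢
        omega
      · rw [h6, pr_cons G c (c' :: u), mul_assoc, ← mul_assoc (G.s c) (G.s c) (pr G (c' :: u)),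
          G.sq, one_mul]

end

end Pool.Agent.X333.ONL
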