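import Mathlib
import Pool.Agent.X333.ONL.Grp
set_option autoImplicit false

/-! The disjoint union of the groups has bounded geometry and fails property A. -/

namespace Pool.Agent.X333.ONL

/-- the disjoint union of the groups -/
def X : Type := Σ i : ℕ, (gp i).Γ

instance : Countable X := inferInstanceAs (Countable (Σ i : ℕ, (gp i).Γ))

/-- the distance between different pieces -/
noncomputable def Lc (i : ℕ) : ℕ :=
  (∑ k ∈ Finset.range (i + 1), ∑ x : (gp k).Γ, len (gp k) x) + i + 1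

theorem Lc_mono {i j : ℕ} (h : i ≤ j) : Lc i ≤ Lc j := by
  unfold Lc
  have : ∑ k ∈ Finset.range (i + 1), ∑ x : (gp k).Γ, len (gp k) x ≤
      ∑ k ∈ Finset.range (j + 1), ∑ x : (gp k).Γ, len (gp k) x :=
    Finset.sum_le_sum_of_subset (Finset.range_subset_range.2 (by omega))
  omega

theorem len_le_Lc {k i : ℕ} (h : k ≤ i) (x : (gp k).Γ) : len (gp k) x ≤ Lc i := by
  have h1 : len (gp k) x ≤ ∑ x : (gp k).Γ, len (gp k) x :=
    Finset.single_le_sum (f := fun x => len (gp k) x) (fun _ _ => Nat.zero_le _) (Finset.mem_univ x)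
  have h2 : ∑ x : (gp k).Γ, len (gp k) x ≤
      ∑ k ∈ Finset.range (i + 1), ∑ x : (gp k).Γ, len (gp k) x :=
    Finset.single_le_sum (f := fun k => ∑ x : (gp k).Γ, len (gp k) x) (fun _ _ => Nat.zero_le _)
      (Finset.mem_range.2 (by omega))
  unfold Lc
  omega

theorem lt_Lc (i : ℕ) : i < Lc i := by
  unfold Lc
  omega

open Classical in
/-- the distance -/
noncomputable def D (p q : X) : ℕ :=
  if h : p.1 = q.1 then len (gp q.1) ((h ▸ p.2)⁻¹ * q.2) else Lc (max p.1 q.1)

theorem D_same (i : ℕ) (x y : (gp i).Γ) :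
    D (⟨i, x⟩ : Σ i : ℕ, (gp i).Γ) (⟨i, y⟩ : Σ i : ℕ, (gp i).Γ) = len (gp i) (x⁻¹ * y) := by
  simp [D]

theorem D_diff {p q : X} (h : p.1 ≠ q.1) : D p q = Lc (max p.1 q.1) := by
  simp [D, h]

theorem D_self (p : X) : D p p = 0 := by
  obtain ⟨i, x⟩ := p
  rw [D_same, inv_mul_cancel, len_one]

theorem D_comm (p q : X) : D p q = D q p := by
  by_cases h : p.1 = q.1
  · obtain ⟨i, x⟩ := p
    obtain ⟨j, y⟩ := q
    obtain rfl : i = j := h
    rw [D_same, D_same, ← len_inv, mul_inv_rev, inv_inv]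
  · rw [D_diff h, D_diff (Ne.symm h), max_comm]

theorem D_tri (p q r : X) : D p r ≤ D p q + D q r := by
  by_cases h1 : p.1 = q.1
  · by_cases h2 : q.1 = r.1
    · obtain ⟨i, x⟩ := p
      obtain ⟨j, y⟩ := q
      obtain ⟨k, z⟩ := r
      obtain rfl : i = j := h1
      obtain rfl : i = k := h2
      rw [D_same, D_same, D_same]
      have := len_mul (gp i) (x⁻¹ * y) (y⁻¹ * z)
      rwa [mul_assoc, mul_inv_cancel_left] at this
    · have h3 : p.1 ≠ r.1 := fun h => h2 (h1.symm.trans h)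
      rw [D_diff h2, D_diff h3, h1]
      omega
  · by_cases h2 : q.1 = r.1
    · have h3 : p.1 ≠ r.1 := fun h => h1 (h.trans h2.symm)
      rw [D_diff h1, D_diff h3, h2]
      omega
    · rw [D_diff h1, D_diff h2]
      by_cases h3 : p.1 = r.1
      · have h4 : D p r ≤ Lc (max p.1 q.1) := by
          obtain ⟨i, x⟩ := p
          obtain ⟨k, z⟩ := r
          obtain rfl : i = k := h3
          rw [D_same]
          exact len_le_Lc (le_max_left _ _) _
        omega
      · rw [D_diff h3]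
        rcases le_total p.1 r.1 with h4 | h4
        · have := Lc_mono (show max p.1 r.1 ≤ max q.1 r.1 by omega)
          omega
        · have := Lc_mono (show max p.1 r.1 ≤ max p.1 q.1 by omega)
          omega

theorem D_eq_zero {p q : X} (h : D p q = 0) : p = q := by
  by_cases h1 : p.1 = q.1
  · obtain ⟨i, x⟩ := p
    obtain ⟨j, y⟩ := q
    obtain rfl : i = j := h1
    rw [D_same] at h
    rw [inv_mul_eq_one.1 (len_eq_zero _ h)]
  · rw [D_diff h1] at h
    have := lt_Lc (max p.1 q.1)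
    omega

noncomputable instance : MetricSpace X where
  dist p q := (D p q : ℝ)
  dist_self p := by rw [D_self]; simp
  dist_comm p q := by rw [D_comm]
  dist_triangle p q r := by exact_mod_cast D_tri p q r
  eq_of_dist_eq_zero h := D_eq_zero (by exact_mod_cast h)

theorem dist_eq (p q : X) : dist p q = D p q := rfl

instance : DiscreteTopology X := by
  rw [discreteTopology_iff_isOpen_singleton]
  intro p
  have : ({p} : Set X) = Metric.ball p 1 := by
    ext q
    rw [Set.mem_singleton_iff, Metric.mem_ball, dist_eq]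
    constructor
    · rintro rfl
      rw [D_self]
      simp
    · intro h
      refine D_eq_zero ?_
      have : D q p < 1 := by exact_mod_cast h
      omega
  rw [this]
  exact Metric.isOpen_ball

theorem bounded_geometry (R : ℝ) : ∃ N : ℕ, ∀ x : X,
    (Metric.ball x R).Finite ∧ (Metric.ball x R).ncard ≤ N := by
  set n := ⌈R⌉₊ with hn
  have hF1 : {w : List (Fin 3) | w.length ≤ n}.Finite := List.finite_length_le (Fin 3) n
  have hF2 : {p : X | p.1 < n}.Finite := by
    refine (Finset.finite_toSet ((Finset.range n).sigma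
      (fun i => (Finset.univ : Finset (gp i).Γ)))).subset ?_
    intro p hp
    rw [Finset.mem_coe]
    exact Finset.mem_sigma.2 ⟨Finset.mem_range.2 hp, Finset.mem_univ _⟩
  refine ⟨{w : List (Fin 3) | w.length ≤ n}.ncard + {p : X | p.1 < n}.ncard, fun x => ?_⟩
  have hsub : Metric.ball x R ⊆
      (fun w => ((⟨x.1, x.2 * pr (gp x.1) w⟩ : Σ i : ℕ, (gp i).Γ) : X)) ''
        {w : List (Fin 3) | w.length ≤ n} ∪ {p : X | p.1 < n} := by
    intro q hq
    rw [Metric.mem_ball, dist_eq] at hq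
    have hq2 : D q x ≤ n := by
      have : (D q x : ℝ) ≤ n := hq.le.trans (Nat.le_ceil R)
      exact_mod_cast this
    have hq3 : D q x < n ∨ D q x = n := lt_or_eq_of_le hq2
    by_cases h : q.1 = x.1
    · left
      obtain ⟨i, y⟩ := q
      obtain ⟨j, z⟩ := x
      obtain rfl : i = j := h
      rw [D_comm, D_same] at hq2
      obtain ⟨w, h1, h2⟩ := len_spec (gp i) (z⁻¹ * y)
      refine ⟨w, by rw [Set.mem_setOf_eq, h1]; exact hq2, ?_⟩
      show ((⟨i, z * pr (gp i) w⟩ : Σ i : ℕ, (gp i).Γ) : X) = _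
      rw [h2, mul_inv_cancel_left]
    · right
      rw [D_diff h] at hq2
      have h3 := lt_Lc (max q.1 x.1)
      show q.1 < n
      have := le_max_left q.1 x.1
      omega
  have hfin := (hF1.image (fun w => ((⟨x.1, x.2 * pr (gp x.1) w⟩ : Σ i : ℕ, (gp i).Γ) : X))).union hF2
  refine ⟨hfin.subset hsub, (Set.ncard_le_ncard hsub hfin).trans ?_⟩
  refine (Set.ncard_union_le _ _).trans ?_
  exact Nat.add_le_add_right (Set.ncard_image_le hF1) _

theorem not_A : ¬ (∀ R : ℝ, 0 < R → ∀ ε : ℝ, 0 < ε →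
    ∃ S : ℝ, ∃ A : X → Set (X × ℕ),
      (∀ x, (A x).Finite) ∧ (∀ x, (x, 0) ∈ A x) ∧
      (∀ x, ∀ w ∈ A x, dist w.1 x ≤ S) ∧
      ∀ x y, dist x y < R →
        ((symmDiff (A x) (A y)).ncard : ℝ) < ε * ((A x ∩ A y).ncard : ℝ)) := by
  classical
  intro hA
  obtain ⟨S, A, hfin, h0, hS, hsd⟩ := hA 2 (by norm_num) (1 / 10) (by norm_num)
  set K := ⌈S⌉₊ with hK
  set i := 2 * (K + 1) with hi
  set G := gp i with hG
  let e : G.Γ → X := fun x => (⟨i, x⟩ : Σ i : ℕ, (gp i).Γ)
  let B : G.Γ → Set (X × ℕ) := fun x => A (e x)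
  have hBfin : ∀ x, (B x).Finite := fun x => hfin _
  -- points of `B x`
  have hB : ∀ x, ∀ w ∈ B x, ∃ z, w.1 = e z ∧ len G (x⁻¹ * z) ≤ K := by
    intro x w hw
    have h1 := hS _ w hw
    rw [dist_eq] at h1
    have h2 : D w.1 (e x) ≤ K := by
      have : (D w.1 (e x) : ℝ) ≤ K := h1.trans (Nat.le_ceil S)
      exact_mod_cast this
    by_cases h : w.1.1 = i
    · obtain ⟨⟨j, z⟩, m⟩ := w
      obtain rfl : j = i := h
      refine ⟨z, rfl, ?_⟩
      rw [D_comm] at h2
      rw [← D_same]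
      exact h2
    · have h3 : w.1.1 ≠ (e x).1 := h
      rw [D_diff h3] at h2
      have h4 := lt_Lc (max w.1.1 (e x).1)
      have h5 : (e x).1 = i := rfl
      have h6 := le_max_right w.1.1 (e x).1
      omega
  -- directions
  let P : G.Γ → Fin 3 → Set (X × ℕ) := fun x c => {w | ∃ z, w.1 = e z ∧ z ∈ T G (K + 1) x c}
  have heinj : Function.Injective e := by
    intro a b hab
    have := Sigma.mk.inj_iff.1 hab
    exact eq_of_heq this.2
  have hPdisj : ∀ x c c', c ≠ c' → ∀ w, w ∈ P x c → w ∉ P x c' := by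
    rintro x c c' hcc w ⟨z, hz, hz2⟩ ⟨z', hz', hz2'⟩
    have : z = z' := heinj (hz.symm.trans hz')
    subst this
    exact hcc (T_disj G (by omega) hz2 hz2')
  let M : G.Γ → Fin 3 → ℕ := fun x c => (B x ∩ P x c).ncard
  let n : G.Γ → ℕ := fun x => (B x).ncard
  have hn : ∀ x, 0 < n x := fun x => (Set.ncard_pos (hBfin x)).2 ⟨_, h0 (e x)⟩
  have hsumM : ∀ x, ∑ c, M x c ≤ n x := by
    intro x
    have h1 : ∀ c, M x c = ((hBfin x).toFinset.filter (· ∈ P x c)).card := by
      intro c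
      show (B x ∩ P x c).ncard = _
      rw [← Set.ncard_coe_finset]
      congr 1
      ext w
      simp
    simp only [h1]
    rw [← Finset.card_biUnion]
    · show _ ≤ (B x).ncard
      rw [Set.ncard_eq_toFinset_card _ (hBfin x)]
      refine Finset.card_le_card ?_
      intro w hw
      rw [Finset.mem_biUnion] at hw
      obtain ⟨c, -, hc⟩ := hw
      exact (Finset.mem_filter.1 hc).1
    · intro c _ c' _ hcc
      rw [Function.onFun, Finset.disjoint_left]
      intro w hw hw'
      exact hPdisj x c c' hcc w (Finset.mem_filter.1 hw).2 (Finset.mem_filter.1 hw').2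
  -- neighbouring points
  have hedge : ∀ x c, ((symmDiff (B x) (B (x * G.s c))).ncard : ℝ) <
      1 / 10 * ((B x ∩ B (x * G.s c)).ncard : ℝ) := by
    intro x c
    apply hsd
    rw [dist_eq]
    have h1 : D (e x) (e (x * G.s c)) = len G (x⁻¹ * (x * G.s c)) := D_same i x (x * G.s c)
    rw [h1, inv_mul_cancel_left]
    have := len_s G c
    have h2 : (len G (G.s c) : ℝ) ≤ 1 := by exact_mod_cast this
    linarith
  have hcover : ∀ x c, n x ≤ M x c + (M (x * G.s c) c +
      (symmDiff (B x) (B (x * G.s c))).ncard) := by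
    intro x c
    have hfs : (symmDiff (B x) (B (x * G.s c))).Finite := (hBfin _).symmDiff (hBfin _)
    have h1 : B x ⊆ (B x ∩ P x c) ∪ ((B (x * G.s c) ∩ P (x * G.s c) c) ∪
        symmDiff (B x) (B (x * G.s c))) := by
      intro w hw
      obtain ⟨z, hz, hz2⟩ := hB x w hw
      rcases T_cover G hz2 c with h2 | h2
      · exact Or.inl ⟨hw, z, hz, h2⟩
      · by_cases h3 : w ∈ B (x * G.s c)
        · exact Or.inr (Or.inl ⟨h3, z, hz, h2⟩)
        · exact Or.inr (Or.inr (Or.inl ⟨hw, h3⟩))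
    refine (Set.ncard_le_ncard h1 (((hBfin x).inter_of_left _).union
      (((hBfin _).inter_of_left _).union hfs))).trans ?_
    refine (Set.ncard_union_le _ _).trans (Nat.add_le_add_left ?_ _)
    exact Set.ncard_union_le _ _
  have hnn : ∀ x c, n (x * G.s c) ≤ n x + (symmDiff (B x) (B (x * G.s c))).ncard := by
    intro x c
    have hfs : (symmDiff (B x) (B (x * G.s c))).Finite := (hBfin _).symmDiff (hBfin _)
    have h1 : B (x * G.s c) ⊆ B x ∪ symmDiff (B x) (B (x * G.s c)) := by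
      intro w hw
      by_cases h3 : w ∈ B x
      · exact Or.inl h3
      · exact Or.inr (Or.inr ⟨hw, h3⟩)
    exact (Set.ncard_le_ncard h1 ((hBfin x).union hfs)).trans (Set.ncard_union_le _ _)
  -- real numbers
  let m : G.Γ → Fin 3 → ℝ := fun x c => (M x c : ℝ) / n x
  have hm1 : ∀ x, ∑ c, m x c ≤ 1 := by
    intro x
    show ∑ c, (M x c : ℝ) / n x ≤ 1
    rw [← Finset.sum_div, div_le_one (by exact_mod_cast hn x)]
    exact_mod_cast hsumM x
  have hm2 : ∀ x c, 4 / 5 ≤ m x c + m (x * G.s c) c := by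
    intro x c
    have ha : (0 : ℝ) < n x := by exact_mod_cast hn x
    have hb : (0 : ℝ) < n (x * G.s c) := by exact_mod_cast hn _
    have h1 : (n x : ℝ) ≤ M x c + (M (x * G.s c) c +
      (symmDiff (B x) (B (x * G.s c))).ncard) := by exact_mod_cast hcover x c
    have h2 : (n (x * G.s c) : ℝ) ≤ n x + (symmDiff (B x) (B (x * G.s c))).ncard := by
      exact_mod_cast hnn x c
    have h3 := hedge x c
    have h4 : ((B x ∩ B (x * G.s c)).ncard : ℝ) ≤ n x := by
      exact_mod_cast Set.ncard_le_ncard Set.inter_subset_left (hBfin x)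
    have h5 : (M (x * G.s c) c : ℝ) ≤ n (x * G.s c) := by
      exact_mod_cast Set.ncard_le_ncard Set.inter_subset_left (hBfin _)
    show 4 / 5 ≤ (M x c : ℝ) / n x + (M (x * G.s c) c : ℝ) / n (x * G.s c)
    have h6 : (M (x * G.s c) c : ℝ) / n x ≤ (M (x * G.s c) c : ℝ) / n (x * G.s c) + 1 / 10 := by
      have h7 : (n (x * G.s c) : ℝ) ≤ 11 / 10 * n x := by linarith
      have h8 : (M (x * G.s c) c : ℝ) / n x ≤
          11 / 10 * ((M (x * G.s c) c : ℝ) / n (x * G.s c)) := by
        rw [div_le_iff₀ ha]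
        have h9 : (M (x * G.s c) c : ℝ) =
          (M (x * G.s c) c : ℝ) / n (x * G.s c) * n (x * G.s c) := by field_simp
        have h10 : (0 : ℝ) ≤ (M (x * G.s c) c : ℝ) / n (x * G.s c) := by positivity
        nlinarith [mul_le_mul_of_nonneg_left h7 h10]
      have h11 : (M (x * G.s c) c : ℝ) / n (x * G.s c) ≤ 1 := by
        rw [div_le_one hb]
        exact h5
      linarith
    have h12 : 1 ≤ (M x c : ℝ) / n x + (M (x * G.s c) c : ℝ) / n x + 1 / 10 := by
      have h13 : (n x : ℝ) ≤ M x c + M (x * G.s c) c + 1 / 10 * n x := by linarith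
      have h14 : (n x : ℝ) / n x ≤ (M x c + M (x * G.s c) c + 1 / 10 * n x) / n x :=
        div_le_div_of_nonneg_right h13 ha.le
      rw [div_self ha.ne', add_div, add_div, mul_div_assoc, div_self ha.ne', mul_one] at h14
      exact h14
    linarith
  -- summation
  have hcard : (0 : ℝ) < Fintype.card G.Γ := by
    exact_mod_cast Fintype.card_pos_iff.2 ⟨(1 : G.Γ)⟩
  have hs1 : ∑ x : G.Γ, ∑ c, m x c ≤ Fintype.card G.Γ := by
    calc ∑ x : G.Γ, ∑ c, m x c ≤ ∑ _x : G.Γ, (1 : ℝ) := Finset.sum_le_sum fun x _ => hm1 x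
      _ = Fintype.card G.Γ := by simp
  have hs2 : ∑ x : G.Γ, ∑ c, m (x * G.s c) c = ∑ x : G.Γ, ∑ c, m x c := by
    rw [Finset.sum_comm, Finset.sum_comm (f := fun x c => m x c)]
    refine Finset.sum_congr rfl fun c _ => ?_
    exact Equiv.sum_comp (Equiv.mulRight (G.s c)) (fun x => m x c)
  have hs3 : ∑ _x : G.Γ, ∑ _c : Fin 3, (4 / 5 : ℝ) ≤
      ∑ x : G.Γ, ∑ c, (m x c + m (x * G.s c) c) :=
    Finset.sum_le_sum fun x _ => Finset.sum_le_sum fun c _ => hm2 x c
  simp only [Finset.sum_add_distrib] at hs3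
  rw [hs2] at hs3
  have hs4 : ∑ _x : G.Γ, ∑ _c : Fin 3, (4 / 5 : ℝ) = 12 / 5 * Fintype.card G.Γ := by
    simp only [Finset.sum_const, Finset.card_univ, Fintype.card_fin, nsmul_eq_mul]
    push_cast
    ring
  rw [hs4] at hs3
  nlinarith

end Pool.Agent.X333.ONL
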